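import Pool.Agent.P.MP_86d0e2_an.Up

namespace Pool.Agent.Results.MP_86d0e2_an.OffDiagonal

open Pool.Agent.P.MP_86d0e2_an

/-- For odd `d`, the least number of nonzero components `c z^a w^b` with `a ≠ b` of a symmetric
monomial sphere map of degree `d` is `2 (⌊d/4⌋ + 1)`. -/
theorem result (d : ℕ) (hd : Odd d) :
    IsLeast {n : ℕ | ∃ (N : ℕ) (c : Fin N → ℂ) (a b : Fin N → ℕ),
      IsSymMap d c a b ∧ n = {j | c j ≠ 0 ∧ a j ≠ b j}.ncard} (2 * (d / 4 + 1)) := by
  classical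
  have e : ∀ (N : ℕ) (c : Fin N → ℂ) (a b : Fin N → ℕ), {j | c j ≠ 0 ∧ a j ≠ b j}.ncard =
      (Finset.univ.filter fun j => c j ≠ 0 ∧ a j ≠ b j).card := fun N c a b => by
    rw [← Set.ncard_coe_finset]
    simp
  constructor
  · obtain ⟨N, c, a, b, h, -, k⟩ := upper hd
    refine ⟨N, c, a, b, h, ?_⟩
    rw [e]
    exact le_antisymm (by convert lower hd h) (by convert k)
  · rintro n ⟨N, c, a, b, h, rfl⟩
    rw [e]
    convert lower hd h

end Pool.Agent.Results.MP_86d0e2_an.OffDiagonal
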