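import Pool.Agent.P.MP_86d0e2_an.Up

namespace Pool.Agent.Results.MP_86d0e2_an.Upper

open Pool.Agent.P.MP_86d0e2_an

/-- For odd `d` there is a symmetric monomial sphere map of degree `d` with target dimension
`(d + 3) / 2 + ⌊d/4⌋ - ⌊d/6⌋`. -/
theorem result (d : ℕ) (hd : Odd d) :
    ∃ (N : ℕ) (c : Fin N → ℂ) (a b : Fin N → ℕ),
      IsSymMap d c a b ∧ N + d / 6 = (d + 3) / 2 + d / 4 := by
  obtain ⟨N, c, a, b, h, k, -⟩ := upper hd
  exact ⟨N, c, a, b, h, k⟩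

end Pool.Agent.Results.MP_86d0e2_an.Upper
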